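import Pool.Agent.H99.SF.Main

/-!
# The strong fractional choice number of planar graphs without 4- and 5-cycles is less than 4
-/

namespace Pool.Agent.Results.MP_fd2d27_co.BelowFour

open Pool.Agent.H99.SF Pool.Agent.H47.PT

/-- There is `ε > 0` such that every finite planar graph without 4-cycles and 5-cycles is
`(a,b)`-choosable whenever `a / b ≥ 4 - ε`; in particular the strong fractional choice number of
the class `P_{4,5}` is at most `4 - ε`, hence less than `4`. -/
theorem result :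
    (∃ ε : ℝ, 0 < ε ∧ ∀ (V : Type) [Fintype V] (G : SimpleGraph V), IsPlanar G → NoCyc G 4 →
      NoCyc G 5 → StronglyFracChoosable G (4 - ε)) ∧
    BddAbove valuesP45 ∧ chsfP45 < 4 := by
  have h0 : 0 < bb KK := by
    unfold bb
    exact pow_pos (by norm_num) _
  have hbb : (0 : ℝ) < (bb KK : ℝ) := by exact_mod_cast h0
  obtain ⟨ε, hε, hε1, hε2⟩ : ∃ ε : ℝ, 0 < ε ∧ ε ≤ eps (KK + 1) ∧ ε * (bb KK : ℝ) < 1 := by
    refine ⟨min (eps (KK + 1)) (1 / (2 * (bb KK : ℝ))), lt_min (eps_pos _) (by positivity),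
      min_le_left _ _, ?_⟩
    have h1 : min (eps (KK + 1)) (1 / (2 * (bb KK : ℝ))) ≤ 1 / (2 * (bb KK : ℝ)) :=
      min_le_right _ _
    have h2 : min (eps (KK + 1)) (1 / (2 * (bb KK : ℝ))) * (bb KK : ℝ)
        ≤ 1 / (2 * (bb KK : ℝ)) * (bb KK : ℝ) := mul_le_mul_of_nonneg_right h1 hbb.le
    have h3 : 1 / (2 * (bb KK : ℝ)) * (bb KK : ℝ) = 1 / 2 := by
      field_simp
    rw [h3] at h2
    linarith
  have main : ∀ (V : Type) [Fintype V] (G : SimpleGraph V), IsPlanar G → NoCyc G 4 →
      NoCyc G 5 → StronglyFracChoosable G (4 - ε) := by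
    intro V _ G hp h4 h5 a b ha hb hab
    have hb0 : (0 : ℝ) < b := by exact_mod_cast hb
    rw [le_div_iff₀ hb0] at hab
    refine main_core _ V G rfl hp (free45_of h4 h5) a b hb ?_ ?_
    · refine le_trans ?_ hab
      apply mul_le_mul_of_nonneg_right _ hb0.le
      linarith
    · intro hlt
      have h1 : ε * (b : ℝ) < 1 := by
        have h2 : (b : ℝ) ≤ (bb KK : ℝ) := by exact_mod_cast hlt.le
        have h3 : ε * (b : ℝ) ≤ ε * (bb KK : ℝ) := mul_le_mul_of_nonneg_left h2 hε.le
        linarith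
      have h2 : (4 * b : ℝ) < a + 1 := by
        have : (4 - ε) * (b : ℝ) = 4 * b - ε * b := by ring
        linarith
      have h3 : 4 * b < a + 1 := by exact_mod_cast h2
      omega
  have hle : ∀ x ∈ valuesP45, x ≤ 4 - ε := by
    rintro x ⟨n, G, hp, h4, h5, rfl⟩
    unfold chsf
    apply csInf_le
    · refine ⟨0, ?_⟩
      intro r hr
      by_contra hneg
      push Not at hneg
      have h1 := hr 1 2 le_rfl (by norm_num) (by push_cast; linarith)
      obtain ⟨S, hS, -⟩ := h1 (fun _ => {0}) (fun _ => Finset.card_singleton _)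
      have h2 := (hS 0).1
      have h3 := (hS 0).2
      have h4 := Finset.card_le_card h2
      rw [h3, Finset.card_singleton] at h4
      omega
    · exact main _ G hp h4 h5
  refine ⟨⟨ε, hε, main⟩, ⟨4 - ε, hle⟩, ?_⟩
  unfold chsfP45
  have hlt : (4 : ℝ) - ε < 4 := by linarith
  by_cases hne : valuesP45.Nonempty
  · exact lt_of_le_of_lt (csSup_le hne hle) hlt
  · rw [Set.not_nonempty_iff_eq_empty] at hne
    rw [hne, Real.sSup_empty]
    norm_num

end Pool.Agent.Results.MP_fd2d27_co.BelowFour
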